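import Mathlib
import Pool.Agent.Y703.CT.StmC
import Pool.Agent.Y715.T.Sel2

/-!
# CT-SEL: the Selmer group
-/

set_option autoImplicit false
set_option linter.unusedSectionVars false

open scoped Classical

namespace Pool.Agent.Y48.CT.SEL

open Pool.Agent.Y692.QS (Ei w nr)
open Pool.Agent.Y715.T.Gi Pool.Agent.Y715.T.Nr Pool.Agent.Y715.T.Df
open Pool.Agent.Y715.T.Rec (cs)
open Pool.Agent.Y715.T.RecG
open Pool.Agent.Y715.T.Sel (fac kc_mul kc_one kc_congr kc_pow kc_cube kc_uniq kc_cancel kc_unit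
  kc_exp ex_root root_ne iota_sq iota_ev odd_of not_dvd_of_unr resid_kc exists_emb3)
open Pool.Agent.Y703.CT

variable {J : Type} [Fintype J] {π : J → Ei} {e : J → ZMod 3}
variable {i₀ : QB} {hi : i₀ ^ 2 + i₀ + 1 = 0}

lemma not_lam {ρ : Ei} (h : Pq ρ) : ¬ ρ ∣ lam := by
  intro h1
  apply h.norm
  have e : (3 : Ei) = -(lam * lam) := by
    have := lam_sq
    rw [pow_two] at this
    rw [this, neg_neg]
  rw [e]
  exact (dvd_neg).2 (Dvd.dvd.mul_right h1 _)

lemma not_assoc_lam {ρ : Ei} (h : Pq ρ) : ¬ Associated ρ lam :=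
  fun h1 => not_lam h h1.dvd

lemma p0 (hD : Dt π e) (j : J) : π j ≠ 0 := (hD.pq j).prime.ne_zero

lemma pr0 (hD : Dt π e) (f : J → ℕ) : ∏ j, π j ^ f j ≠ 0 :=
  Finset.prod_ne_zero_iff.2 fun j _ => pow_ne_zero _ (p0 hD j)

lemma esq (hD : Dt π e) (j : J) : e j * e j = 1 := by
  have h := hD.e0 j
  generalize e j = c at *
  revert c
  decide

lemma not_dvd_prod (hD : Dt π e) (j : J) (x : J → ℕ) :
    ¬ π j ∣ ∏ i ∈ Finset.univ.erase j, π i ^ x i := by
  rw [(hD.pq j).prime.dvd_finsetProd_iff]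
  rintro ⟨i, hij, hd⟩
  exact hD.nd i j (Finset.ne_of_mem_erase hij)
    ((hD.pq j).prime.dvd_of_dvd_pow hd)

lemma prod_form (hD : Dt π e) (x : J → ℕ) : (3 : Ei) ∣ ∏ j, π j ^ x j - 1 := by
  have h1 : ∀ S : Finset J, (3 : Ei) ∣ ∏ j ∈ S, π j ^ x j - 1 := by
    intro S
    induction S using Finset.induction_on with
    | empty => simp
    | insert i S his ih =>
      rw [Finset.prod_insert his]
      have h2 : (3 : Ei) ∣ π i ^ x i - 1 := by
        have h3 : (3 : Ei) ∣ π i - 1 := (hD.pq i).three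
        have h4 := sub_dvd_pow_sub_pow (π i) 1 (x i)
        rw [one_pow] at h4
        exact dvd_trans h3 h4
      have e1 : π i ^ x i * ∏ j ∈ S, π j ^ x j - 1 =
          (π i ^ x i - 1) * ∏ j ∈ S, π j ^ x j + (∏ j ∈ S, π j ^ x j - 1) := by ring
      rw [e1]
      exact dvd_add (Dvd.dvd.mul_right h2 _) ih
  exact h1 Finset.univ

/-- the products with exponents at most two are free of cubes -/
lemma cf_prod (hD : Dt π e) (f : J → ZMod 3) : CF (∏ j, π j ^ (f j).val) := by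
  refine ⟨pr0 hD _, fun d hd => ?_⟩
  by_contra hu
  have hd0 : d ≠ 0 := by
    rintro rfl
    rw [zero_pow three_ne_zero, zero_dvd_iff] at hd
    exact pr0 hD _ hd
  obtain ⟨ρ, hρi, hρd⟩ := WfDvdMonoid.exists_irreducible_factor hu hd0
  have hρ : Prime ρ := hρi.prime
  have h1 : ρ ^ 3 ∣ ∏ j, π j ^ (f j).val := (pow_dvd_pow_of_dvd hρd 3).trans hd
  have h2 : ρ ∣ ∏ j, π j ^ (f j).val := (dvd_pow_self ρ three_ne_zero).trans h1
  rw [hρ.dvd_finsetProd_iff] at h2
  obtain ⟨j, -, hj⟩ := h2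
  have h3 : Associated ρ (π j) :=
    (hρ.dvd_prime_iff_associated (hD.pq j).prime).1 (hρ.dvd_of_dvd_pow hj)
  have h4 : π j ^ 3 ∣ ∏ j, π j ^ (f j).val := (pow_dvd_pow_of_dvd h3.symm.dvd 3).trans h1
  rw [← Finset.mul_prod_erase Finset.univ (fun i => π i ^ (f i).val) (Finset.mem_univ j)] at h4
  have hlt : (f j).val < 3 := ZMod.val_lt _
  have e1 : π j ^ 3 = π j ^ (f j).val * π j ^ (3 - (f j).val) := by
    rw [← pow_add]
    congr 1
    omega
  rw [e1] at h4
  have h5 := (mul_dvd_mul_iff_left (pow_ne_zero _ (p0 hD j))).1 h4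
  exact not_dvd_prod hD j _ ((dvd_pow_self (π j) (by omega)).trans h5)

/-- the support -/
lemma support (hD : Dt π e) {h : GK i₀ → ZMod 3} {z : Ei} (hz : CF z) (hzh : Kc hi z h)
    (hun : ∀ (p : ℕ) [Fact p.Prime] (ι : QB →ₐ[ℚ] PadicAlgCl p), p ≠ 3 →
      (∀ j, ¬ ‖ι (ev i₀ hi (π j))‖ < 1) →
      ∀ (τ : Au p) (σ : GK i₀), Cmp ι τ σ → Inert τ → h σ = 0) (ρ : Ei)
    (hρ : Prime ρ) (hd : ρ ∣ z) : Associated ρ lam ∨ ∃ j, Associated ρ (π j) := by
  by_contra hcon
  push Not at hcon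
  obtain ⟨p, hp, ι, hl⟩ := exists_emb hi hρ
  have hp3 := odd_of hi ι hρ hl hcon.1
  refine not_dvd_of_unr hz hzh hp3 ι hρ hl (fun τ σ hc hτ =>
    hun p ι hp3 (fun j hj => hcon.2 j ?_) τ σ hc hτ) hd
  rw [iota_ev] at hl hj
  exact (hρ.dvd_prime_iff_associated (hD.pq j).prime).1 ((dvd_iff (iota_sq hi ι) hρ hl _).2 hj)

/-- **CT-SEL.** -/
theorem t_SEL : S_SEL := by
  intro _ hLOC hRAM hUNR J _ π e hD hker h9 i₀ hi u a hTw h hc hm hloc
  -- the character `a`
  have hb : Kc hi (∏ j, π j ^ (e j).val) (fun σ => -a σ) :=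
    kc_of hi (root_ne (hi := hi) (z := pD π e) (pr0 hD _) hTw.cube) hTw.cube hTw.act
  -- the Kummer generator
  obtain ⟨z, hz, hzh⟩ := kum hi h hc hm
  obtain ⟨v₀, g, x, hu, ez⟩ := fac (π := π) z hz.1 (support hD hz hzh
    (fun p _ ι hp3 hpj τ σ hcc hτ => by
      obtain ⟨R, hR⟩ := hloc p ι
      exact (hUNR J π e hD i₀ hi u a hTw h p ι hp3 hpj R hR τ σ hcc hτ).2))
  rw [ez] at hzh
  obtain ⟨ι₃⟩ := exists_emb3
  obtain ⟨q, hq⟩ := prod_form hD x
  have hq' : ∏ j, π j ^ x j = 1 + 3 * q := by rw [← hq]; ring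
  have hx : Kc hi (∏ j, π j ^ x j) h := by
    obtain ⟨R, hR⟩ := hloc 3 ι₃
    have hzh' := hzh
    rw [hq'] at hzh'
    obtain ⟨⟨g', hg'⟩, hu1⟩ := hLOC i₀ hi (pD π e) (prod_form hD _) h9 u a hTw h v₀ q g hu hzh'
      inferInstance ι₃ R hR
    refine kc_unit (pr0 hD _) hu1 (kc_cancel (z' := lam ^ g') ?_
      (pow_ne_zero _ prime_lam.ne_zero) ?_)
    · exact mul_ne_zero hu.ne_zero (pr0 hD _)
    · have e1 : v₀ * (∏ j, π j ^ x j) * (lam ^ g') ^ 3 = v₀ * lam ^ g * ∏ j, π j ^ x j := by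
        rw [hg', ← pow_mul, mul_comm g' 3]
        ring
      rw [e1]
      exact hzh
  set v : J → ZMod 3 := fun j => x j * e j with hv
  have hxv : ∀ j, (x j : ZMod 3) = e j * v j := by
    intro j
    have := esq hD j
    calc (x j : ZMod 3) = x j * (e j * e j) := by rw [this, mul_one]
      _ = _ := by rw [hv]; ring
  have heq : ∀ j, ∑ i, e i * cs (π j) (π i) * (v i - v j) = 0 := by
    intro j
    obtain ⟨p, hp, ι, hl⟩ := exists_emb hi (hD.pq j).prime
    have hp3 := odd_of hi ι (hD.pq j).prime hl (not_assoc_lam (hD.pq j))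
    obtain ⟨R, hR⟩ := hloc p ι
    obtain ⟨ε, hε⟩ := hRAM J π e hD i₀ hi u a hTw h j p ι hl R hR
    -- the character that is trivial at `π j`
    set n : ℕ := ε.val with hn
    have hn3 : (n : ZMod 3) = ε := ZMod.natCast_zmod_val _
    have hy := kc_mul (pr0 hD x) (pow_ne_zero n (pr0 hD _)) hx (kc_pow (pr0 hD _) hb n)
    have hy1 : ∀ (τ : Au p) (σ : GK i₀), Cmp ι τ σ → h σ + n * -a σ = 0 := by
      intro τ σ hcc
      rw [hε τ σ hcc, hn3]
      ring
    have ey : (∏ i, π i ^ x i) * (∏ i, π i ^ (e i).val) ^ n =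
        ∏ i, π i ^ (x i + (e i).val * n) := by
      rw [← Finset.prod_pow, ← Finset.prod_mul_distrib]
      refine Finset.prod_congr rfl fun i _ => ?_
      rw [← pow_mul, ← pow_add]
    rw [ey] at hy
    set y : J → ZMod 3 := fun i => x i + e i * ε with hydef
    have hy2 : Kc hi (∏ i, π i ^ (y i).val) (fun σ => h σ + n * -a σ) := by
      refine kc_exp (p0 hD) (fun i => ?_) hy
      rw [ZMod.natCast_zmod_val, hydef]
      push_cast
      rw [hn3, ZMod.natCast_zmod_val]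
    have hyj : y j = 0 := by
      have h1 := not_dvd_of_unr (cf_prod hD y) hy2 hp3 ι (hD.pq j).prime hl
        (fun τ σ hcc _ => hy1 τ σ hcc)
      by_contra hne
      apply h1
      refine dvd_trans (dvd_pow_self (π j) ?_) (Finset.dvd_prod_of_mem
        (fun i => π i ^ (y i).val) (Finset.mem_univ j))
      rwa [Ne, ZMod.val_eq_zero]
    have hεv : ε = -v j := by
      have h1 : (x j : ZMod 3) + e j * ε = 0 := hyj
      have h2 := esq hD j
      rw [hxv j] at h1
      calc ε = (e j * e j) * ε := by rw [h2, one_mul]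
        _ = e j * (e j * v j + e j * ε) - (e j * e j) * v j := by ring
        _ = _ := by rw [h1, h2]; ring
    have hyi : ∀ i, y i = e i * (v i - v j) := by
      intro i
      rw [hydef]
      change (x i : ZMod 3) + e i * ε = _
      rw [hxv i, hεv]
      ring
    have e2 : ∏ i, π i ^ (y i).val = ∏ i ∈ Finset.univ.erase j, π i ^ (y i).val := by
      rw [← Finset.mul_prod_erase Finset.univ (fun i => π i ^ (y i).val) (Finset.mem_univ j),
        hyj, ZMod.val_zero, pow_zero, one_mul]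
    rw [e2] at hy2
    have hcube := resid_kc hy2 hp3 ι (hD.pq j).prime hl hy1
    have hnd := not_dvd_prod hD j (fun i => (y i).val)
    have h9 := (hD.pq j).norm
    have hpj := (hD.pq j).prime
    have hcs := (cs_zero_iff hpj h9 hnd).2 hcube
    have hnd1 : ∀ i ∈ Finset.univ.erase j, ¬ π j ∣ π i := fun i hij =>
      hD.nd i j (Finset.ne_of_mem_erase hij)
    rw [cs_prod hpj h9 _ _ (fun i hij h1 => hnd1 i hij (hpj.dvd_of_dvd_pow h1))] at hcs
    rw [← Finset.add_sum_erase Finset.univ _ (Finset.mem_univ j), sub_self, mul_zero, zero_add,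
      ← hcs]
    refine Finset.sum_congr rfl fun i hij => ?_
    rw [cs_pow hpj h9 (hnd1 i hij), ZMod.natCast_zmod_val, hyi i]
    ring
  have hconst := hker v heq
  -- conclusion
  rcases isEmpty_or_nonempty J with hJ | ⟨⟨j₀⟩⟩
  · refine ⟨0, fun σ => ?_⟩
    rw [zero_mul]
    rw [Finset.univ_eq_empty, Finset.prod_empty] at hx
    exact kc_uniq one_ne_zero hx kc_one σ
  · refine ⟨-v j₀, fun σ => ?_⟩
    have h1 : Kc hi (∏ j, π j ^ ((e j).val * (v j₀).val)) h := by
      refine kc_exp (p0 hD) (fun j => ?_) hx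
      rw [hxv j, hconst j j₀]
      push_cast
      rw [ZMod.natCast_zmod_val, ZMod.natCast_zmod_val]
    have h2 := kc_pow (pr0 hD _) hb (v j₀).val
    have e1 : (∏ i, π i ^ (e i).val) ^ (v j₀).val = ∏ j, π j ^ ((e j).val * (v j₀).val) := by
      rw [← Finset.prod_pow]
      refine Finset.prod_congr rfl fun i _ => ?_
      rw [← pow_mul]
    rw [e1] at h2
    have h3 := kc_uniq (pr0 hD _) h1 h2 σ
    rw [h3, ZMod.natCast_zmod_val]
    ring

end Pool.Agent.Y48.CT.SEL
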